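import Pool.Agent.Y728.LineQ
import Pool.Agent.Y812.LowerK

/-!
The points of the projective line over a number field, of all heights, with a small truncated
counting function with respect to `q` points: both bounds (helper730; the upper bound is
`Pool.Agent.Y728.line_final`).
-/

set_option autoImplicit false

namespace Pool.Agent.Y730.QP

open NumberField IsDedekindDomain Finset
open Pool.Agent.TH876.KR (form localHeight localHeight_nonneg localHeight_eq localHeight_pos_iff
  log_Nv_pos' m2 form_le good_finite Good m2_of_good log_nn fv_int_le)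
open Pool.Agent.H691R3 Pool.Agent.TH876.Loc
open Pool.Agent.Y812.LK

variable {K : Type} [Field K] [NumberField K]

/-- the sum over the primes outside `S` of the truncated local heights, not normalised -/
noncomputable def cnt (S : Set (Pr K)) {q : ℕ} (a : Fin q → Fin 2 → K) (x : Fin 2 → K) : ℝ :=
  ∑ᶠ (v : Pr K) (_ : v ∉ S), ∑ i : Fin q, min (localHeight v (a i) x) (Real.log (Nv v))

theorem term_nonneg (v : Pr K) {a x : Fin 2 → K} (h : form a x ≠ 0) :
    0 ≤ min (localHeight v a x) (Real.log (Nv v)) :=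
  le_min (localHeight_nonneg v h) (log_Nv_pos' v).le

/-- the local heights vanish outside a finite set of primes -/
theorem supp_finite {q : ℕ} {a : Fin q → Fin 2 → K} {x : Fin 2 → K} (ha : ∀ i, a i ≠ 0)
    (hx0 : x ≠ 0) (hx : ∀ i, form (a i) x ≠ 0) :
    {v : Pr K | ∃ i, localHeight v (a i) x ≠ 0}.Finite := by
  have h1 : (⋃ i, {v : Pr K | fv v (form (a i) x) ≠ 1}).Finite :=
    Set.finite_iUnion fun i => fv_support_finite (hx i)
  have h2 : (⋃ i, {v : Pr K | ¬ Good v (a i)}).Finite :=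
    Set.finite_iUnion fun i => good_finite (a i)
  refine (h2.union ((good_finite x).union h1)).subset ?_
  rintro v ⟨i, hv⟩
  by_contra hcon
  rw [Set.mem_union, Set.mem_union, not_or, not_or] at hcon
  obtain ⟨k1, k2, k3⟩ := hcon
  apply hv
  have g1 : Good v (a i) := by
    by_contra h'
    exact k1 (Set.mem_iUnion.2 ⟨i, h'⟩)
  have g2 : Good v x := by
    by_contra h'
    exact k2 h'
  have g3 : fv v (form (a i) x) = 1 := by
    by_contra h'
    exact k3 (Set.mem_iUnion.2 ⟨i, h'⟩)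
  rw [localHeight_eq, g3, m2_of_good (ha i) g1, m2_of_good hx0 g2]
  simp

/-- a positive local height is at least `log N(v)` -/
theorem log_Nv_le_localHeight (v : Pr K) {a x : Fin 2 → K} (h : form a x ≠ 0)
    (h0 : 0 < localHeight v a x) : Real.log (Nv v) ≤ localHeight v a x := by
  have ha0 : a ≠ 0 := by
    rintro rfl
    apply h
    unfold form
    simp
  have hx0 : x ≠ 0 := by
    rintro rfl
    apply h
    unfold form
    simp
  have key : ∀ y : Fin 2 → K, y ≠ 0 → ∃ n : ℤ, Real.log (m2 v y) = n * Real.log (Nv v) ∧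
      0 < m2 v y := by
    intro y hy
    have hor : y 0 ≠ 0 ∨ y 1 ≠ 0 := by
      by_contra hcon
      push Not at hcon
      apply hy
      funext j
      fin_cases j
      · exact hcon.1
      · exact hcon.2
    have hpos : 0 < m2 v y := by
      unfold m2
      rcases hor with h1 | h1
      · exact lt_of_lt_of_le ((fv v).pos h1) (le_max_left _ _)
      · exact lt_of_lt_of_le ((fv v).pos h1) (le_max_right _ _)
    rcases le_total (fv v (y 0)) (fv v (y 1)) with hle | hle
    · have e : m2 v y = fv v (y 1) := max_eq_right hle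
      have hy1 : y 1 ≠ 0 := by
        intro h1
        rw [e, h1, map_zero] at hpos
        exact lt_irrefl _ hpos
      obtain ⟨n, hn⟩ := log_fv v hy1
      exact ⟨n, by rw [e, hn], hpos⟩
    · have e : m2 v y = fv v (y 0) := max_eq_left hle
      have hy1 : y 0 ≠ 0 := by
        intro h1
        rw [e, h1, map_zero] at hpos
        exact lt_irrefl _ hpos
      obtain ⟨n, hn⟩ := log_fv v hy1
      exact ⟨n, by rw [e, hn], hpos⟩
  obtain ⟨n1, e1, p1⟩ := key a ha0
  obtain ⟨n2, e2, p2⟩ := key x hx0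
  obtain ⟨n3, e3⟩ := log_fv v h
  have hN := log_Nv_pos' v
  have e : localHeight v a x = ((n1 + n2 - n3 : ℤ) : ℝ) * Real.log (Nv v) := by
    rw [localHeight_eq, Real.log_div (mul_pos p1 p2).ne' ((fv v).pos h).ne',
      Real.log_mul p1.ne' p2.ne', e1, e2, e3]
    push_cast
    ring
  rw [e] at h0 ⊢
  have h1 : (0 : ℝ) < ((n1 + n2 - n3 : ℤ) : ℝ) := by
    by_contra hcon
    push Not at hcon
    nlinarith
  have h2 : (1 : ℤ) ≤ n1 + n2 - n3 := by
    have : (0 : ℤ) < n1 + n2 - n3 := by exact_mod_cast h1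
    omega
  have h3 : (1 : ℝ) ≤ ((n1 + n2 - n3 : ℤ) : ℝ) := by exact_mod_cast h2
  nlinarith

/-- comparison of the counting functions -/
theorem counting_le (S : Set (Pr K)) {q : ℕ} {a : Fin q → Fin 2 → K} {x : Fin 2 → K}
    (ha : ∀ i, a i ≠ 0) (hx0 : x ≠ 0) (hx : ∀ i, form (a i) x ≠ 0) :
    Pool.Agent.TH876.KR.counting S a x ≤ cnt S a x := by
  classical
  have hfin := supp_finite ha hx0 hx
  obtain ⟨V, hV⟩ : ∃ V : Finset (Pr K), V = hfin.toFinset := ⟨_, rfl⟩
  have hmem : ∀ v, v ∉ V → ∀ i, localHeight v (a i) x = 0 := by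
    intro v hv i
    by_contra hcon
    apply hv
    rw [hV, Set.Finite.mem_toFinset]
    exact ⟨i, hcon⟩
  have e1 : Pool.Agent.TH876.KR.counting S a x = ∑ v ∈ V,
      if (v ∉ S ∧ 0 < ∑ i, localHeight v (a i) x) then Real.log (Nv v) else 0 := by
    unfold Pool.Agent.TH876.KR.counting
    rw [finsum_mem_def]
    rw [finsum_eq_sum_of_support_subset (s := V)]
    · refine Finset.sum_congr rfl fun v _ => ?_
      rw [Set.indicator_apply]
      rfl
    · intro v hv
      by_contra hcon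
      have hcon' : v ∉ V := hcon
      rw [Function.mem_support, Set.indicator_apply] at hv
      apply hv
      rw [if_neg]
      rintro ⟨-, h2⟩
      rw [Finset.sum_eq_zero fun i _ => hmem v hcon' i] at h2
      exact lt_irrefl _ h2
  have e2 : cnt S a x = ∑ v ∈ V,
      if v ∉ S then ∑ i : Fin q, min (localHeight v (a i) x) (Real.log (Nv v)) else 0 := by
    unfold cnt
    rw [finsum_eq_sum_of_support_subset (s := V)]
    · refine Finset.sum_congr rfl fun v _ => ?_
      rw [finsum_eq_if]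
    · intro v hv
      by_contra hcon
      have hcon' : v ∉ V := hcon
      rw [Function.mem_support, finsum_eq_if] at hv
      apply hv
      split_ifs with h
      · rfl
      · refine Finset.sum_eq_zero fun i _ => ?_
        rw [hmem v hcon' i]
        exact min_eq_left (log_Nv_pos' v).le
  rw [e1, e2]
  refine Finset.sum_le_sum fun v _ => ?_
  have hnn : 0 ≤ ∑ i : Fin q, min (localHeight v (a i) x) (Real.log (Nv v)) :=
    Finset.sum_nonneg fun i _ => term_nonneg v (hx i)
  by_cases hS : v ∈ S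
  · rw [if_neg (by tauto), if_neg (by tauto)]
  · rw [if_pos hS]
    split_ifs with h
    · obtain ⟨-, h2⟩ := h
      have h3 : ∃ i, 0 < localHeight v (a i) x := by
        by_contra hcon
        push Not at hcon
        have := Finset.sum_nonpos (s := Finset.univ) fun i _ => hcon i
        linarith
      obtain ⟨i, hi⟩ := h3
      refine le_trans ?_ (Finset.single_le_sum (f := fun i : Fin q =>
        min (localHeight v (a i) x) (Real.log (Nv v))) (fun i _ => term_nonneg v (hx i))
        (Finset.mem_univ i))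
      exact le_min (log_Nv_le_localHeight v (hx i) hi) le_rfl
    · exact hnn

/-- invariance of the local height -/
theorem localHeight_smul (v : Pr K) {c : K} (hc : c ≠ 0) {a x : Fin 2 → K} (h : form a x ≠ 0) :
    localHeight v (c • a) x = localHeight v a x := by
  have e1 : m2 v (c • a) = fv v c * m2 v a := by
    unfold m2
    rw [Pi.smul_apply, Pi.smul_apply, smul_eq_mul, smul_eq_mul, map_mul, map_mul,
      mul_max_of_nonneg _ _ ((fv v).nonneg c)]
  have e2 : form (c • a) x = c * form a x := by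
    unfold form
    rw [Pi.smul_apply, Pi.smul_apply, smul_eq_mul, smul_eq_mul]
    ring
  rw [localHeight_eq, localHeight_eq, e1, e2, map_mul]
  congr 1
  have h1 := ((fv v).pos hc).ne'
  have h2 := ((fv v).pos h).ne'
  field_simp

/-- the counting function of an integral point of bounded house -/
theorem cnt_le {q : ℕ} (a : Fin q → Fin 2 → K) (ha : ∀ i, a i ≠ 0) :
    ∃ C : ℝ, 1 ≤ C ∧ ∀ (S : Set (Pr K)) (x y : 𝓞 K) (T : ℝ), 1 ≤ T → x ≠ 0 → house (x : K) ≤ T →
      house (y : K) ≤ T → (∀ i, form (a i) ![(x : K), y] ≠ 0) →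
      cnt S a ![(x : K), y] ≤ (Module.finrank ℚ K : ℝ) * (q * Real.log (C * T)) := by
  classical
  -- integral coordinates
  have hex : ∀ i, ∃ (c : K) (b : Fin 2 → 𝓞 K), c ≠ 0 ∧ ∀ j, c * a i j = (b j : K) := by
    intro i
    obtain ⟨c, hc⟩ := IsLocalization.exist_integer_multiples_of_finite
      (nonZeroDivisors (𝓞 K)) (a i)
    choose b hb using hc
    refine ⟨((c : 𝓞 K) : K), b, ?_, fun j => ?_⟩
    · exact coe_ne (nonZeroDivisors.coe_ne_zero c)
    · rw [show ((b j : 𝓞 K) : K) = algebraMap (𝓞 K) K (b j) from rfl, hb j, Algebra.smul_def]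
  choose c b hc hb using hex
  obtain ⟨M, hM⟩ : ∃ M : ℝ, M = 1 + ∑ i, (house (b i 0 : K) + house (b i 1 : K)) := ⟨_, rfl⟩
  have hMi : ∀ i, house (b i 0 : K) + house (b i 1 : K) ≤ M := by
    intro i
    have := Finset.single_le_sum (f := fun i : Fin q => house (b i 0 : K) + house (b i 1 : K))
      (fun i _ => add_nonneg (house_nonneg _) (house_nonneg _)) (Finset.mem_univ i)
    rw [hM]
    linarith
  have hM1 : 1 ≤ M := by
    have : 0 ≤ ∑ i, (house (b i 0 : K) + house (b i 1 : K)) :=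
      Finset.sum_nonneg fun i _ => add_nonneg (house_nonneg _) (house_nonneg _)
    rw [hM]
    linarith
  refine ⟨M, hM1, fun S x y T hT hx0 hx hy hne => ?_⟩
  have hT0 : 0 < T := by linarith
  obtain ⟨P, hP⟩ : ∃ P : Fin 2 → K, P = ![(x : K), y] := ⟨_, rfl⟩
  rw [← hP] at hne ⊢
  have hP0 : P ≠ 0 := by
    intro h
    have := congrFun h 0
    rw [hP] at this
    exact coe_ne hx0 this
  -- the values of the forms
  obtain ⟨z, hz⟩ : ∃ z : Fin q → 𝓞 K, z = fun i => b i 0 * y - b i 1 * x := ⟨_, rfl⟩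
  have hzf : ∀ i, (z i : K) = c i * form (a i) P := by
    intro i
    rw [hz, hP]
    show ((b i 0 * y - b i 1 * x : 𝓞 K) : K) = _
    have e : ((b i 0 * y - b i 1 * x : 𝓞 K) : K) = (b i 0 : K) * y - (b i 1 : K) * x := rfl
    rw [e, ← hb i 0, ← hb i 1]
    unfold form
    simp only [Matrix.cons_val_zero, Matrix.cons_val_one]
    ring
  have hz0 : ∀ i, z i ≠ 0 := by
    intro i h
    have h1 := hzf i
    rw [h] at h1
    exact mul_ne_zero (hc i) (hne i) h1.symm
  have hzh : ∀ i, house (z i : K) ≤ M * T := by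
    intro i
    have e : (z i : K) = (b i 0 : K) * y + -((b i 1 : K) * x) := by
      rw [hz]
      show ((b i 0 * y - b i 1 * x : 𝓞 K) : K) = _
      have e : ((b i 0 * y - b i 1 * x : 𝓞 K) : K) = (b i 0 : K) * y - (b i 1 : K) * x := rfl
      rw [e]
      ring
    rw [e]
    refine (house_add_le _ _).trans ?_
    have hneg : house (-((b i 1 : K) * x)) = house ((b i 1 : K) * x) := by
      unfold house
      rw [map_neg, norm_neg]
    rw [hneg]
    have h1 := (house_mul_le (b i 0 : K) (y : K)).trans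
      (mul_le_mul_of_nonneg_left hy (house_nonneg _))
    have h2 := (house_mul_le (b i 1 : K) (x : K)).trans
      (mul_le_mul_of_nonneg_left hx (house_nonneg _))
    have h3 := mul_le_mul_of_nonneg_right (hMi i) hT0.le
    linarith
  have hMT : 1 ≤ M * T := by nlinarith
  -- one form
  have hone : ∀ i, ∀ V : Finset (Pr K), ∑ v ∈ V, min (localHeight v (a i) P) (Real.log (Nv v)) ≤
      (Module.finrank ℚ K : ℝ) * Real.log (M * T) := by
    intro i V
    have hnn : nn (V.filter fun v => fv v (z i : K) ≠ 1) ≤ (M * T) ^ (Module.finrank ℚ K) :=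
      nn_le (hz0 i) hMT (hzh i) _ fun v hv => (Finset.mem_filter.1 hv).2
    have h1 : ∑ v ∈ V, min (localHeight v (a i) P) (Real.log (Nv v)) ≤
        ∑ v ∈ V.filter (fun v => fv v (z i : K) ≠ 1), Real.log (Nv v) := by
      rw [Finset.sum_filter]
      refine Finset.sum_le_sum fun v _ => ?_
      split_ifs with h
      · exact min_le_right _ _
      · push Not at h
        refine (min_le_left _ _).trans ?_
        rw [← localHeight_smul v (hc i) (hne i), localHeight_eq]
        have e1 : form (c i • a i) P = (z i : K) := by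
          rw [hzf i]
          unfold form
          rw [Pi.smul_apply, Pi.smul_apply, smul_eq_mul, smul_eq_mul]
          ring
        rw [e1, h, div_one]
        refine Real.log_nonpos (mul_nonneg ?_ ?_) ?_
        · exact ((fv v).nonneg _).trans (le_max_left _ _)
        · exact ((fv v).nonneg _).trans (le_max_left _ _)
        · have h2 : m2 v (c i • a i) ≤ 1 := by
            refine max_le ?_ ?_
            · rw [Pi.smul_apply, smul_eq_mul, hb i 0]
              exact fv_int_le v _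
            · rw [Pi.smul_apply, smul_eq_mul, hb i 1]
              exact fv_int_le v _
          have h3 : m2 v P ≤ 1 := by
            rw [hP]
            exact max_le (fv_int_le v x) (fv_int_le v y)
          exact mul_le_one₀ h2 (((fv v).nonneg _).trans (le_max_left _ _)) h3
    refine h1.trans ?_
    rw [← log_nn, ← Real.log_pow]
    exact Real.log_le_log (nn_pos _) hnn
  have hfin := supp_finite ha hP0 hne
  obtain ⟨V, hV⟩ : ∃ V : Finset (Pr K), V = hfin.toFinset := ⟨_, rfl⟩
  have hmem : ∀ v, v ∉ V → ∀ i, localHeight v (a i) P = 0 := by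
    intro v hv i
    by_contra hcon
    apply hv
    rw [hV, Set.Finite.mem_toFinset]
    exact ⟨i, hcon⟩
  have e2 : cnt S a P = ∑ v ∈ V,
      if v ∉ S then ∑ i : Fin q, min (localHeight v (a i) P) (Real.log (Nv v)) else 0 := by
    unfold cnt
    rw [finsum_eq_sum_of_support_subset (s := V)]
    · refine Finset.sum_congr rfl fun v _ => ?_
      rw [finsum_eq_if]
    · intro v hv
      by_contra hcon
      have hcon' : v ∉ V := hcon
      rw [Function.mem_support, finsum_eq_if] at hv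
      apply hv
      split_ifs with h
      · rfl
      · refine Finset.sum_eq_zero fun i _ => ?_
        rw [hmem v hcon' i]
        exact min_eq_left (log_Nv_pos' v).le
  rw [e2]
  calc _ ≤ ∑ v ∈ V, ∑ i : Fin q, min (localHeight v (a i) P) (Real.log (Nv v)) := by
        refine Finset.sum_le_sum fun v _ => ?_
        split_ifs
        · exact Finset.sum_nonneg fun i _ => term_nonneg v (hne i)
        · exact le_rfl
    _ = ∑ i : Fin q, ∑ v ∈ V, min (localHeight v (a i) P) (Real.log (Nv v)) := Finset.sum_comm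
    _ ≤ ∑ _i : Fin q, (Module.finrank ℚ K : ℝ) * Real.log (M * T) :=
        Finset.sum_le_sum fun i _ => hone i V
    _ = _ := by
        rw [Finset.sum_const, Finset.card_univ, Fintype.card_fin, nsmul_eq_mul]
        ring

/-- the points off the divisor with bounded counting function (not normalised) -/
def PQ (S : Set (Pr K)) {q : ℕ} (a : Fin q → Fin 2 → K) (X : ℝ) :
    Set (Projectivization K (Fin 2 → K)) :=
  {P | ∃ (x : Fin 2 → K) (hx : x ≠ 0), P = Projectivization.mk K x hx ∧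
    (∀ i, form (a i) x ≠ 0) ∧ cnt S a x ≤ Real.log X}

theorem upper (K : Type) [Field K] [NumberField K] (S : Set (Pr K)) (hS : S.Finite) (q : ℕ)
    (hq : 3 ≤ q) (a : Fin q → Fin 2 → K) (ha0 : ∀ i, a i ≠ 0)
    (ha : ∀ i j, i ≠ j → form (a i) (a j) ≠ 0) (ε : ℝ) (hε : 0 < ε) :
    ∃ C : ℝ, ∀ X : ℝ, 1 ≤ X → (PQ S a X).Finite ∧
      ((PQ S a X).ncard : ℝ) ≤ C * X ^ (2 / (q : ℝ) + ε) := by
  obtain ⟨C, hC⟩ := Pool.Agent.Y728.line_final K S hS q hq a ha ε hε
  refine ⟨C, fun X hX => ?_⟩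
  obtain ⟨h1, h2⟩ := hC X hX
  have hsub : PQ S a X ⊆ Pool.Agent.Y728.PtsQ S a X := by
    rintro P ⟨x, hx, e, hf, hc⟩
    refine ⟨x, hx, e, hf, ?_⟩
    rw [← Real.le_log_iff_exp_le (by linarith)]
    exact (counting_le S ha0 hx hf).trans hc
  refine ⟨h1.subset hsub, le_trans ?_ h2⟩
  exact_mod_cast Set.ncard_le_ncard hsub h1

theorem lower' (K : Type) [Field K] [NumberField K] (S : Set (Pr K)) (hS : S.Finite) (q : ℕ)
    (hq : 3 ≤ q) (a : Fin q → Fin 2 → K) (ha0 : ∀ i, a i ≠ 0)
    (ha : ∀ i j, i ≠ j → form (a i) (a j) ≠ 0) (δ : ℝ) (hδ : 0 < δ) (hδq : δ ≤ 2 / q) :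
    ∃ X0 : ℝ, 1 ≤ X0 ∧ ∀ X : ℝ, X0 ≤ X → X ^ (2 / (q : ℝ) - δ) ≤ ((PQ S a X).ncard : ℝ) := by
  classical
  have hd : 0 < Module.finrank ℚ K := Module.finrank_pos
  obtain ⟨d, hdd⟩ : ∃ d, d = Module.finrank ℚ K := ⟨_, rfl⟩
  have hd1 : 1 ≤ d := by omega
  have hd0 : (0 : ℝ) < d := by exact_mod_cast hd1
  have hq0 : (0 : ℝ) < q := by exact_mod_cast (by omega : 0 < q)
  have hqd : (0 : ℝ) < q * d := by positivity
  obtain ⟨M, hM1, hM⟩ := cnt_le a ha0
  have hM0 : 0 < M := by linarith
  obtain ⟨C, hC, hD⟩ := D_bound K (q * d * δ / 2) (by positivity)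
  have hs0 := hs_nonneg K
  obtain ⟨N, hN⟩ := exists_nat_ge (M * (hs K + 1))
  have hMs : 0 < M * (hs K + 1) := by positivity
  have hN1 : (1 : ℝ) ≤ N := by nlinarith
  have hN0 : (0 : ℝ) < N := by linarith
  have hNn : 1 ≤ N := by exact_mod_cast hN1
  -- the threshold
  refine ⟨max (max 1 ((N : ℝ) ^ (q * d))) ((((2 * N : ℝ) ^ (2 * d) * C) * (q + 1) + 1) ^ (2 / δ)),
    le_max_of_le_left (le_max_left _ _), fun X hX => ?_⟩
  have hX1 : 1 ≤ X := (le_max_of_le_left (le_max_left _ _)).trans hX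
  have hX2 : (N : ℝ) ^ (q * d) ≤ X := (le_max_of_le_left (le_max_right _ _)).trans hX
  have hX3 : (((2 * N : ℝ) ^ (2 * d) * C) * (q + 1) + 1) ^ (2 / δ) ≤ X :=
    (le_max_right _ _).trans hX
  have hX0 : 0 < X := by linarith
  obtain ⟨L, hL⟩ : ∃ L : ℝ, L = X ^ ((1 : ℝ) / (q * d)) := ⟨_, rfl⟩
  have hL0 : 0 < L := by rw [hL]; exact Real.rpow_pos_of_pos hX0 _
  have hLX : L ^ (q * d) = X := by
    rw [hL, ← Real.rpow_natCast, ← Real.rpow_mul hX0.le]
    have : (1 : ℝ) / (q * d) * ((q * d : ℕ) : ℝ) = 1 := by push_cast; field_simp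
    rw [this, Real.rpow_one]
  have hNL : (N : ℝ) ≤ L := by
    rw [← hLX] at hX2
    refine (pow_le_pow_iff_left₀ hN0.le hL0.le ?_).1 hX2
    exact (Nat.mul_pos (by omega) hd1).ne'
  have hLN : 1 ≤ L / N := by rw [le_div_iff₀ hN0]; linarith
  obtain ⟨n, hn⟩ : ∃ n : ℕ, n = ⌊L / N⌋₊ := ⟨_, rfl⟩
  have hn1 : 1 ≤ n := by
    rw [hn]
    exact (Nat.one_le_floor_iff _).2 hLN
  have hnle : (n : ℝ) ≤ L / N := by rw [hn]; exact Nat.floor_le (by positivity)
  have hnge : L / (2 * N) ≤ n := by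
    have h1 : L / N < n + 1 := by rw [hn]; exact Nat.lt_floor_add_one _
    have h2 : (1 : ℝ) ≤ n := by exact_mod_cast hn1
    have h3 : L / (2 * N) = L / N / 2 := by field_simp
    rw [h3]
    linarith
  have hn1' : (1 : ℝ) ≤ n := by exact_mod_cast hn1
  obtain ⟨T, hT⟩ : ∃ T : ℝ, T = (hs K + 1) * n := ⟨_, rfl⟩
  have hT1 : 1 ≤ T := by
    rw [hT]
    nlinarith
  have hMTL : M * T ≤ L := by
    have h1 : (n : ℝ) * N ≤ L := by rwa [le_div_iff₀ hN0] at hnle
    rw [hT]
    have h2 : M * ((hs K + 1) * n) = (M * (hs K + 1)) * n := by ring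
    rw [h2]
    have h3 := mul_le_mul_of_nonneg_right hN (by linarith : (0 : ℝ) ≤ n)
    linarith
  have hTL : T ≤ L := by nlinarith
  obtain ⟨B, hB⟩ : ∃ B, B = box K n := ⟨_, rfl⟩
  have hB1 : ∀ a ∈ B, a ≠ 0 ∧ house (a : K) ≤ T := by
    intro a ha
    rw [hB] at ha
    obtain ⟨f, hf, rfl⟩ := mem_box K ha
    refine ⟨elt_ne K fun i => (hf i).1, (elt_house K hf).trans ?_⟩
    rw [hT]
    nlinarith
  obtain ⟨Dn, hDn⟩ : ∃ Dn : ℕ, Dn = ⌊C * T ^ (q * d * δ / 2)⌋₊ := ⟨_, rfl⟩
  have hDn' : (Dn : ℝ) ≤ C * L ^ (q * d * δ / 2) := by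
    rw [hDn]
    refine (Nat.floor_le (by positivity)).trans ?_
    refine mul_le_mul_of_nonneg_left ?_ hC.le
    exact Real.rpow_le_rpow (by linarith) hTL (by positivity)
  have hqc := quot_count B (fun a ha => (hB1 a ha).1) Dn (fun a ha b hb => by
    rw [hDn]
    exact Nat.le_floor (hD T hT1 B hB1 a ha b hb))
  obtain ⟨F, hF⟩ : ∃ F : Finset K, F = (B ×ˢ B).image fun p => (p.1 : K) / (p.2 : K) := ⟨_, rfl⟩
  rw [← hF] at hqc
  -- the points
  have hne : ∀ t : K, (![t, 1] : Fin 2 → K) ≠ 0 := by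
    intro t h
    have := congrFun h 1
    simp at this
  let φ : K → Projectivization K (Fin 2 → K) := fun t => Projectivization.mk K ![t, 1] (hne t)
  have hφ : Function.Injective φ := by
    intro s t hst
    rw [Projectivization.mk_eq_mk_iff'] at hst
    obtain ⟨c, hc⟩ := hst
    have h0 := congrFun hc 0
    have h1 := congrFun hc 1
    simp only [Pi.smul_apply, smul_eq_mul, Matrix.cons_val_zero, Matrix.cons_val_one] at h0 h1
    rw [mul_one] at h1
    rw [h1, one_mul] at h0
    exact h0.symm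
  -- the exceptional ratios
  obtain ⟨G, hG⟩ : ∃ G : Finset K, G = F.filter fun t => ∀ i, form (a i) ![t, 1] ≠ 0 := ⟨_, rfl⟩
  have hGF : F.card ≤ G.card + q := by
    have hcov : F ⊆ G ∪ (Finset.univ : Finset (Fin q)).biUnion
        (fun i => F.filter fun t => form (a i) ![t, 1] = 0) := by
      intro t ht
      by_cases h : ∀ i, form (a i) ![t, 1] ≠ 0
      · rw [hG]
        exact Finset.mem_union_left _ (Finset.mem_filter.2 ⟨ht, h⟩)
      · push Not at h
        obtain ⟨i, hi⟩ := h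
        exact Finset.mem_union_right _ (Finset.mem_biUnion.2
          ⟨i, Finset.mem_univ _, Finset.mem_filter.2 ⟨ht, hi⟩⟩)
    refine (Finset.card_le_card hcov).trans ((Finset.card_union_le _ _).trans ?_)
    refine Nat.add_le_add_left ?_ _
    refine (Finset.card_biUnion_le_card_mul _ _ 1 fun i _ => ?_).trans (le_of_eq ?_)
    · rw [Finset.card_le_one]
      intro s hs t ht
      have h1 := (Finset.mem_filter.1 hs).2
      have h2 := (Finset.mem_filter.1 ht).2
      unfold form at h1 h2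
      simp only [Matrix.cons_val_zero, Matrix.cons_val_one, mul_one] at h1 h2
      have h3 : a i 1 ≠ 0 := by
        intro h3
        rw [h3, zero_mul, sub_zero] at h1
        apply ha0 i
        funext j
        fin_cases j
        · exact h1
        · exact h3
      have h4 : a i 1 * (s - t) = 0 := by linear_combination h2 - h1
      rcases mul_eq_zero.1 h4 with h5 | h5
      · exact absurd h5 h3
      · exact sub_eq_zero.1 h5
    · rw [Finset.card_univ, Fintype.card_fin, Nat.mul_one]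
  have hsub : ((G.image φ : Finset _) : Set (Projectivization K (Fin 2 → K))) ⊆ PQ S a X := by
    intro P hP
    rw [Finset.mem_coe, Finset.mem_image] at hP
    obtain ⟨t, ht, rfl⟩ := hP
    rw [hG] at ht
    obtain ⟨htF, hti⟩ := Finset.mem_filter.1 ht
    rw [hF] at htF
    obtain ⟨p, hp, rfl⟩ := Finset.mem_image.1 htF
    obtain ⟨hp1, hp2⟩ := Finset.mem_product.1 hp
    have hp20 := coe_ne (hB1 _ hp2).1
    have hp10 := coe_ne (hB1 _ hp1).1
    have hPx : (![(p.1 : K), (p.2 : K)] : Fin 2 → K) ≠ 0 := by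
      intro h
      exact hp10 (congrFun h 0)
    have hfr : ∀ i, form (a i) ![(p.1 : K), (p.2 : K)] ≠ 0 := by
      intro i h
      apply hti i
      have : form (a i) ![(p.1 : K), (p.2 : K)] = p.2 * form (a i) ![(p.1 : K) / p.2, 1] := by
        unfold form
        simp only [Matrix.cons_val_zero, Matrix.cons_val_one]
        field_simp
      rw [this] at h
      exact (mul_eq_zero.1 h).resolve_left hp20
    refine ⟨![(p.1 : K), (p.2 : K)], hPx, ?_, hfr, ?_⟩
    · show Projectivization.mk K _ _ = _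
      rw [Projectivization.mk_eq_mk_iff']
      refine ⟨(p.2 : K)⁻¹, ?_⟩
      funext j
      fin_cases j
      · show (p.2 : K)⁻¹ * p.1 = p.1 / p.2
        rw [div_eq_mul_inv, mul_comm]
      · show (p.2 : K)⁻¹ * p.2 = 1
        exact inv_mul_cancel₀ hp20
    · refine (hM S p.1 p.2 T hT1 (hB1 _ hp1).1 (hB1 _ hp1).2 (hB1 _ hp2).2 hfr).trans ?_
      have h1 : Real.log X = q * d * Real.log L := by
        rw [← hLX, Real.log_pow]
        push_cast
        ring
      rw [h1, ← hdd]
      have h2 : Real.log (M * T) ≤ Real.log L := Real.log_le_log (by positivity) hMTL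
      have h3 := mul_le_mul_of_nonneg_left h2 hqd.le
      linarith
  have hfinP : (PQ S a X).Finite := by
    obtain ⟨C', hC'⟩ := upper K S hS q hq a ha0 ha 1 one_pos
    exact (hC' X hX1).1
  have hcardG : (G.card : ℝ) ≤ ((PQ S a X).ncard : ℝ) := by
    have h1 : (G.image φ).card ≤ (PQ S a X).ncard := by
      rw [← Set.ncard_coe_finset]
      exact Set.ncard_le_ncard hsub hfinP
    rw [Finset.card_image_of_injective _ hφ] at h1
    exact_mod_cast h1
  refine le_trans ?_ hcardG
  -- numbers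
  have hFG : (F.card : ℝ) ≤ (G.card : ℝ) + q := by exact_mod_cast hGF
  rw [hB, card_box, ← hdd] at hqc
  have h1 : (((n ^ d) ^ 2 : ℕ) : ℝ) ≤ ((F.card * Dn : ℕ) : ℝ) := by exact_mod_cast hqc
  push_cast at h1
  have h2 : (L / (2 * N)) ^ (2 * d) ≤ (((n : ℝ) ^ d) ^ 2) := by
    rw [← pow_mul, mul_comm d 2]
    exact pow_le_pow_left₀ (by positivity) hnge _
  have h3 : (L / (2 * N)) ^ (2 * d) ≤ F.card * (C * L ^ (q * d * δ / 2)) :=
    h2.trans (h1.trans (mul_le_mul_of_nonneg_left hDn' (Nat.cast_nonneg _)))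
  rw [div_pow, div_le_iff₀ (by positivity)] at h3
  obtain ⟨A, hA⟩ : ∃ A : ℝ, A = (2 * N : ℝ) ^ (2 * d) * C := ⟨_, rfl⟩
  have hA0 : 0 < A := by rw [hA]; positivity
  have h4 : A * (q + 1) + 1 ≤ X ^ (δ / 2) := by
    have h5 : 0 < A * (q + 1) + 1 := by positivity
    rw [← hA] at hX3
    have h6 := Real.rpow_le_rpow (by positivity) hX3 (by positivity : (0 : ℝ) ≤ δ / 2)
    rw [← Real.rpow_mul h5.le] at h6
    have h7 : 2 / δ * (δ / 2) = 1 := by field_simp
    rw [h7, Real.rpow_one] at h6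
    exact h6
  have e1 : L ^ (2 * d) = X ^ ((2 : ℝ) / q) := by
    rw [hL, ← Real.rpow_natCast, ← Real.rpow_mul hX0.le]
    congr 1
    push_cast
    field_simp
  have e2 : L ^ (q * d * δ / 2) = X ^ (δ / 2) := by
    rw [hL, ← Real.rpow_mul hX0.le]
    congr 1
    field_simp
  rw [e1, e2] at h3
  have hXd : 0 < X ^ (δ / 2) := Real.rpow_pos_of_pos hX0 _
  have hXd1 : 1 ≤ X ^ (δ / 2) := Real.one_le_rpow hX1 (by positivity)
  have h8 : X ^ ((2 : ℝ) / q) ≤ F.card * (A * X ^ (δ / 2)) := by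
    calc X ^ ((2 : ℝ) / q) ≤ F.card * (C * X ^ (δ / 2)) * (2 * N) ^ (2 * d) := h3
      _ = _ := by rw [hA]; ring
  have e3 : X ^ ((2 : ℝ) / q) = X ^ (2 / (q : ℝ) - δ) * (X ^ (δ / 2) * X ^ (δ / 2)) := by
    rw [← Real.rpow_add hX0, ← Real.rpow_add hX0]
    congr 1
    ring
  rw [e3] at h8
  have h9 : X ^ (2 / (q : ℝ) - δ) * X ^ (δ / 2) ≤ F.card * A := by
    have h10 : (X ^ (2 / (q : ℝ) - δ) * X ^ (δ / 2)) * X ^ (δ / 2) ≤ (F.card * A) * X ^ (δ / 2) := by
      linarith
    exact le_of_mul_le_mul_right h10 hXd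
  obtain ⟨Z, hZ⟩ : ∃ Z : ℝ, Z = X ^ (2 / (q : ℝ) - δ) := ⟨_, rfl⟩
  have hZ1 : 1 ≤ Z := by rw [hZ]; exact Real.one_le_rpow hX1 (by linarith)
  rw [← hZ] at h9 ⊢
  by_contra hcon
  push Not at hcon
  have h10 : Z * (A * (q + 1) + 1) ≤ F.card * A :=
    (mul_le_mul_of_nonneg_left h4 (by linarith)).trans h9
  have h11 : (F.card : ℝ) * A ≤ (Z + q) * A :=
    mul_le_mul_of_nonneg_right (by linarith) hA0.le
  have h12 : (q : ℝ) * A ≤ Z * (q * A) := by
    have : 0 ≤ (q : ℝ) * A := by positivity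
    nlinarith
  nlinarith

theorem lower (K : Type) [Field K] [NumberField K] (S : Set (Pr K)) (hS : S.Finite) (q : ℕ)
    (hq : 3 ≤ q) (a : Fin q → Fin 2 → K) (ha0 : ∀ i, a i ≠ 0)
    (ha : ∀ i j, i ≠ j → form (a i) (a j) ≠ 0) (δ : ℝ) (hδ : 0 < δ) :
    ∃ X0 : ℝ, 1 ≤ X0 ∧ ∀ X : ℝ, X0 ≤ X → X ^ (2 / (q : ℝ) - δ) ≤ ((PQ S a X).ncard : ℝ) := by
  have hq0 : (0 : ℝ) < q := by exact_mod_cast (by omega : 0 < q)
  obtain ⟨X0, h1, h2⟩ := lower' K S hS q hq a ha0 ha (min δ (2 / q)) (lt_min hδ (by positivity))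
    (min_le_right _ _)
  refine ⟨X0, h1, fun X hX => le_trans ?_ (h2 X hX)⟩
  refine Real.rpow_le_rpow_of_exponent_le (h1.trans hX) ?_
  have := min_le_left δ (2 / (q : ℝ))
  linarith

end Pool.Agent.Y730.QP
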